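import Pool.Agent.FTU.Stmts

/-!
# FTU (MP_8cfbae_mp), row CJB: the subalgebras and the derivations
-/

set_option autoImplicit false

namespace Pool.Agent.FTU.H74

open Complex MvPolynomial Pool.Agent.FTU

/-- a property which holds for constants and the variables in `s` and is closed under sums and products
holds on the subalgebra -/
theorem ind {s : Set Var} {p : RR → Prop} (hC : ∀ a : ℂ, p (C a)) (hX : ∀ v ∈ s, p (X v))
    (ha : ∀ P Q, p P → p Q → p (P + Q)) (hm : ∀ P Q, p P → p Q → p (P * Q)) :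
    ∀ P ∈ supported ℂ s, p P := by
  intro P hP
  rw [supported_eq_adjoin_X] at hP
  induction hP using Algebra.adjoin_induction with
  | mem x hx =>
    obtain ⟨v, hv, rfl⟩ := hx
    exact hX v hv
  | algebraMap r => exact hC r
  | add x y _ _ hx hy => exact ha x y hx hy
  | mul x y _ _ hx hy => exact hm x y hx hy

theorem xmem {v : Var} (h : v ≠ Var.z ∧ v ≠ Var.zb) : (X v : RR) ∈ Jt :=
  X_mem_supported.2 h

theorem cj_C (a : ℂ) : cj (C a) = C ((starRingEnd ℂ) a) := by
  simp [cj]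

theorem cj_X (v : Var) : cj (X v) = X (sw v) := by
  simp [cj]

theorem dt_X (v : Var) : dt (X v) = match v with
    | Var.jet c p q r => X (Var.jet c p q (r + 1))
    | _ => 0 := by
  unfold dt
  rw [mkDerivation_X]
  cases v <;> rfl

theorem dz_zero : ∀ P ∈ Jz, dz P = 0 := by
  refine ind (fun a => pderiv_C) (fun v hv => pderiv_X_of_ne hv) ?_ ?_
  · intro P Q hP hQ
    rw [map_add, hP, hQ, add_zero]
  · intro P Q hP hQ
    rw [Derivation.leibniz, hP, hQ, smul_zero, smul_zero, add_zero]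

theorem db_zero : ∀ P ∈ Jt, db P = 0 := by
  refine ind (fun a => pderiv_C) (fun v hv => pderiv_X_of_ne hv.2) ?_ ?_
  · intro P Q hP hQ
    rw [map_add, hP, hQ, add_zero]
  · intro P Q hP hQ
    rw [Derivation.leibniz, hP, hQ, smul_zero, smul_zero, add_zero]

theorem jt_jz : ∀ P ∈ Jt, P ∈ Jz := fun _ hP =>
  supported_mono (fun _ hv => hv.1) hP

theorem cj_mem : ∀ P ∈ Jt, cj P ∈ Jt := by
  refine ind (fun a => ?_) (fun v hv => ?_) ?_ ?_
  · rw [cj_C]
    exact Jt.algebraMap_mem _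
  · rw [cj_X]
    cases v with
    | eta => exact xmem ⟨by simp [sw], by simp [sw]⟩
    | z => exact absurd rfl hv.1
    | zb => exact absurd rfl hv.2
    | jet c p q r => exact xmem ⟨by simp [sw], by simp [sw]⟩
  · intro P Q hP hQ
    rw [map_add]
    exact Jt.add_mem hP hQ
  · intro P Q hP hQ
    rw [map_mul]
    exact Jt.mul_mem hP hQ

theorem dt_mem : ∀ P ∈ Jt, dt P ∈ Jt := by
  have h : ∀ P ∈ Jt, P ∈ Jt ∧ dt P ∈ Jt := by
    refine ind (fun a => ⟨Jt.algebraMap_mem _, ?_⟩) (fun v hv => ⟨xmem hv, ?_⟩) ?_ ?_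
    · have : dt (C a) = 0 := derivation_C dt a
      rw [this]
      exact Jt.zero_mem
    · rw [dt_X]
      cases v with
      | eta => exact Jt.zero_mem
      | z => exact absurd rfl hv.1
      | zb => exact absurd rfl hv.2
      | jet c p q r => exact xmem ⟨by simp, by simp⟩
    · intro P Q hP hQ
      exact ⟨Jt.add_mem hP.1 hQ.1, by rw [map_add]; exact Jt.add_mem hP.2 hQ.2⟩
    · intro P Q hP hQ
      refine ⟨Jt.mul_mem hP.1 hQ.1, ?_⟩
      rw [Derivation.leibniz, smul_eq_mul, smul_eq_mul]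
      exact Jt.add_mem (Jt.mul_mem hP.1 hQ.2) (Jt.mul_mem hQ.1 hP.2)
  exact fun P hP => (h P hP).2

theorem div_mem (m : ℕ) (P : RR) (h : xe ^ m * P ∈ Jt) : P ∈ Jt := by
  unfold Jt at h ⊢
  rw [mem_supported] at h ⊢
  intro v hv
  apply h
  simp only [Finset.mem_coe, mem_vars] at hv ⊢
  obtain ⟨α, hα, hvα⟩ := hv
  refine ⟨Finsupp.single Var.eta m + α, ?_, ?_⟩
  · rw [mem_support_iff] at hα ⊢
    have : xe ^ m = monomial (Finsupp.single Var.eta m) (1 : ℂ) := by
      unfold xe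
      rw [X_pow_eq_monomial]
    rw [this, coeff_monomial_mul, one_mul]
    exact hα
  · rw [Finsupp.mem_support_iff] at hvα ⊢
    rw [Finsupp.add_apply]
    omega

theorem cjb : CjbStmt := by
  have hxe : (xe : RR) ≠ 0 := X_ne_zero _
  refine ⟨fun P hP => ⟨cj_mem P hP, dt_mem P hP, dz_zero P (jt_jz P hP), db_zero P hP⟩, dz_zero,
    jt_jz, xmem ⟨by simp, by simp⟩, X_mem_supported.2 (by simp),
    fun c p q r => xmem ⟨by simp, by simp⟩, dt_X _, dt_X _, dt_X _, ?_, ?_, ?_, ?_, ?_, ?_, ?_,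
    div_mem⟩
  · exact pderiv_X_of_ne (by simp)
  · exact pderiv_X_of_ne (by simp)
  · exact pderiv_X_self _
  · exact pderiv_X_of_ne (by simp)
  · exact pderiv_X_of_ne (by simp)
  · exact pderiv_X_self _
  · intro m P Q h
    exact mul_left_cancel₀ (pow_ne_zero m hxe) h

end Pool.Agent.FTU.H74
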